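import Pool.Agent.Helper98.GX.St2

/-! # Project GX, module CBY: few primes occur in the coordinates -/

set_option autoImplicit false

open scoped BigOperators

namespace Pool.Agent.Helper86.GX

open Pool.Agent.Helper98.GX
open Pool.Agent.Helper53.CX (DivVal LinSys IsNefCartier)

section

variable {K : Type} [Field K] [Algebra ℂ K]

private theorem ord_div (v : DivVal K) {g g' : K} (hg : g ≠ 0) (hg' : g' ≠ 0) :
    v.ord (g / g') = v.ord g - v.ord g' := by
  have h := v.ord_mul g' (g / g') hg' (div_ne_zero hg hg')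
  rw [mul_div_cancel₀ g hg'] at h
  omega

private theorem ord_one (v : DivVal K) : v.ord 1 = 0 := by
  have h := v.ord_mul 1 1 one_ne_zero one_ne_zero
  rw [mul_one] at h
  omega

private theorem ord_pow (v : DivVal K) {g : K} (hg : g ≠ 0) (m : ℕ) :
    v.ord (g ^ m) = (m : ℤ) * v.ord g := by
  induction m with
  | zero => simp [ord_one]
  | succ m ih =>
    rw [pow_succ, v.ord_mul _ _ (pow_ne_zero m hg) hg, ih]
    push_cast
    ring

private theorem ord_inv (v : DivVal K) {g : K} (hg : g ≠ 0) : v.ord g⁻¹ = -v.ord g := by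
  have h := ord_div v one_ne_zero hg
  rw [one_div, ord_one] at h
  omega

private theorem ord_zpow (v : DivVal K) {g : K} (hg : g ≠ 0) (m : ℤ) :
    v.ord (g ^ m) = m * v.ord g := by
  cases m with
  | ofNat m =>
    simp only [Int.ofNat_eq_natCast, zpow_natCast]
    exact ord_pow v hg m
  | negSucc m =>
    rw [zpow_negSucc, ord_inv v (pow_ne_zero _ hg), ord_pow v hg, Int.negSucc_eq]
    push_cast
    ring

/-- the linear system multiplied by the function `g` -/
private def mulSys (F : LinSys K) (g : K) (hg : g ≠ 0) : LinSys K where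
  gens := F.gens.map ⟨fun h => g * h, fun _ _ hab => mul_left_cancel₀ hg hab⟩
  nonempty := by
    rw [Finset.map_nonempty]
    exact F.nonempty
  ne_zero := by
    intro f hf
    rw [Finset.mem_map] at hf
    obtain ⟨h, hh, rfl⟩ := hf
    exact mul_ne_zero hg (F.ne_zero h hh)

private theorem le_div (F : LinSys K) (v : DivVal K) {h : K} (hh : h ∈ F.gens) :
    -v.ord h ≤ F.div v :=
  Finset.le_sup' (fun f => -v.ord f) hh

private theorem exists_div (F : LinSys K) (v : DivVal K) : ∃ h ∈ F.gens, F.div v = -v.ord h :=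
  Finset.exists_mem_eq_sup' F.nonempty fun f => -v.ord f

private theorem mulSys_div (F : LinSys K) (g : K) (hg : g ≠ 0) (v : DivVal K) :
    (mulSys F g hg).div v = F.div v - v.ord g := by
  apply le_antisymm
  · obtain ⟨h, hh, e⟩ := exists_div (mulSys F g hg) v
    rw [e]
    change h ∈ F.gens.map ⟨fun h => g * h, _⟩ at hh
    rw [Finset.mem_map] at hh
    obtain ⟨f, hf, rfl⟩ := hh
    change -v.ord (g * f) ≤ _
    rw [v.ord_mul g f hg (F.ne_zero f hf)]
    have := le_div F v hf
    omega
  · obtain ⟨f, hf, e⟩ := exists_div F v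
    have hm : g * f ∈ (mulSys F g hg).gens := by
      change g * f ∈ F.gens.map ⟨fun h => g * h, _⟩
      rw [Finset.mem_map]
      exact ⟨f, hf, rfl⟩
    have := le_div (mulSys F g hg) v hm
    rw [v.ord_mul g f hg (F.ne_zero f hf)] at this
    omega

/-- The same class basis with `H k` replaced by the linearly equivalent system `g * H k`. -/
private noncomputable def mulBasis {V : NormalProj K} {r : ℕ} (B : ClassBasis V r) (k : Fin r)
    (g : K) (hg : g ≠ 0) : ClassBasis V r where
  H := Function.update B.H k (mulSys (B.H k) g hg)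
  deg := B.deg
  deg_pos := B.deg_pos
  sec := by
    intro p hp
    obtain ⟨φ, hφ, h1, h2⟩ := B.sec p hp
    have key : ∀ q : DivVal K, q.ord (φ * g ^ (B.deg p k)) +
        ∑ i, (B.deg p i : ℤ) * (Function.update B.H k (mulSys (B.H k) g hg) i).div q =
        q.ord φ + ∑ i, (B.deg p i : ℤ) * (B.H i).div q := by
      intro q
      rw [q.ord_mul _ _ hφ (pow_ne_zero _ hg), ord_pow q hg]
      have e : ∀ i : Fin r, (B.deg p i : ℤ) *
          (Function.update B.H k (mulSys (B.H k) g hg) i).div q =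
          (B.deg p i : ℤ) * (B.H i).div q - if i = k then (B.deg p k : ℤ) * q.ord g else 0 := by
        intro i
        by_cases hik : i = k
        · subst hik
          rw [Function.update_self, mulSys_div, if_pos rfl]
          ring
        · rw [Function.update_of_ne hik, if_neg hik, sub_zero]
      rw [Finset.sum_congr rfl fun i _ => e i, Finset.sum_sub_distrib, Finset.sum_ite_eq' Finset.univ k,
        if_pos (Finset.mem_univ k)]
      ring
    refine ⟨φ * g ^ (B.deg p k), mul_ne_zero hφ (pow_ne_zero _ hg), ?_, ?_⟩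
    · rw [key p]; exact h1
    · intro q hq hqp
      rw [key q]; exact h2 q hq hqp
  indep := by
    intro a φ hφ h
    refine B.indep a (φ * g ^ (a k)) (mul_ne_zero hφ (zpow_ne_zero _ hg)) fun q hq => ?_
    rw [q.ord_mul _ _ hφ (zpow_ne_zero _ hg), ord_zpow q hg, h q hq]
    have e : ∀ i : Fin r, a i * (Function.update B.H k (mulSys (B.H k) g hg) i).div q =
        a i * (B.H i).div q - if i = k then a k * q.ord g else 0 := by
      intro i
      by_cases hik : i = k
      · subst hik
        rw [Function.update_self, mulSys_div, if_pos rfl]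
        ring
      · rw [Function.update_of_ne hik, if_neg hik, sub_zero]
    rw [Finset.sum_congr rfl fun i _ => e i, Finset.sum_sub_distrib, Finset.sum_ite_eq' Finset.univ k,
      if_pos (Finset.mem_univ k)]
    ring

/-- finitely many zeros and poles, from the second part of CBD for two equivalent class bases -/
private theorem fin_ord (hCBD : StCBD) {V : NormalProj K} {r : ℕ} (B : ClassBasis V r) (k : Fin r)
    (g : K) (hg : g ≠ 0) : {p : DivVal K | p ∈ V.primes ∧ p.ord g ≠ 0}.Finite := by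
  have h1 := (hCBD K V r B).2.1 k
  have h2 := (hCBD K V r (mulBasis B k g hg)).2.1 k
  refine (h1.union h2).subset ?_
  rintro p ⟨hp, hp0⟩
  by_cases h : (B.H k).div p = 0
  · right
    refine ⟨hp, ?_⟩
    change (Function.update B.H k (mulSys (B.H k) g hg) k).div p ≠ 0
    rw [Function.update_self, mulSys_div, h]
    omega
  · exact Or.inl ⟨hp, h⟩

/-- the divisor of a section of `H k` is one prime of total degree one -/
private theorem exists_prime (hCBD : StCBD) {V : NormalProj K} {r : ℕ} (B : ClassBasis V r)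
    (k : Fin r) (g : K) (hg : g ∈ (B.H k).gens) :
    ∃ p : DivVal K, ∑ l, B.deg p l = 1 ∧
      ∀ q ∈ V.primes, q ≠ p → q.ord g + (B.H k).div q = 0 := by
  classical
  have hg0 : g ≠ 0 := (B.H k).ne_zero g hg
  have hfin := (fin_ord hCBD B k g hg0).union ((hCBD K V r B).2.1 k)
  set F : Finset (DivVal K) := hfin.toFinset with hF
  have hmem : ∀ p, p ∈ F ↔ p ∈ V.primes ∧ (p.ord g ≠ 0 ∨ (B.H k).div p ≠ 0) := by
    intro p
    rw [hF, Set.Finite.mem_toFinset]
    constructor
    · rintro (⟨h1, h2⟩ | ⟨h1, h2⟩)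
      · exact ⟨h1, Or.inl h2⟩
      · exact ⟨h1, Or.inr h2⟩
    · rintro ⟨h1, h2 | h2⟩
      · exact Or.inl ⟨h1, h2⟩
      · exact Or.inr ⟨h1, h2⟩
  have hsum : ∀ h : DivVal K → ℤ, (∀ p ∈ V.primes, p ∉ F → h p = 0) →
      ∑ᶠ p ∈ V.primes, h p = ∑ p ∈ F, h p := by
    intro h hh
    apply finsum_mem_eq_sum_of_inter_support_eq
    ext p
    constructor
    · rintro ⟨h1, h2⟩
      refine ⟨?_, h2⟩
      by_contra hc
      exact h2 (hh p h1 hc)
    · rintro ⟨h1, h2⟩
      exact ⟨((hmem p).1 h1).1, h2⟩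
  have hout : ∀ p ∈ V.primes, p ∉ F → p.ord g = 0 ∧ (B.H k).div p = 0 := by
    intro p hp hpF
    rw [hmem] at hpF
    push Not at hpF
    exact hpF hp
  -- the degrees
  have d1 : ∀ l, ∑ p ∈ F, (B.deg p l : ℤ) * p.ord g = 0 := by
    intro l
    rw [← hsum (fun p => (B.deg p l : ℤ) * p.ord g) fun p hp hpF => by
      rw [(hout p hp hpF).1, mul_zero]]
    exact (hCBD K V r B).1 g hg0 l
  have d2 : ∀ l, ∑ p ∈ F, (B.deg p l : ℤ) * (B.H k).div p = if k = l then 1 else 0 := by
    intro l
    rw [← hsum (fun p => (B.deg p l : ℤ) * (B.H k).div p) fun p hp hpF => by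
      rw [(hout p hp hpF).2, mul_zero]]
    by_cases h : k = l
    · subst h
      rw [if_pos rfl]
      exact (hCBD K V r B).2.2.1 k
    · rw [if_neg h]
      exact (hCBD K V r B).2.2.2 k l h
  have d3 : ∑ p ∈ F, (∑ l, (B.deg p l : ℤ)) * (p.ord g + (B.H k).div p) = 1 := by
    have e : ∀ p : DivVal K, (∑ l, (B.deg p l : ℤ)) * (p.ord g + (B.H k).div p) =
        ∑ l, ((B.deg p l : ℤ) * p.ord g + (B.deg p l : ℤ) * (B.H k).div p) := by
      intro p
      rw [Finset.sum_mul]
      exact Finset.sum_congr rfl fun l _ => by ring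
    rw [Finset.sum_congr rfl fun p _ => e p, Finset.sum_comm]
    have e2 : ∀ l : Fin r, ∑ p ∈ F, ((B.deg p l : ℤ) * p.ord g + (B.deg p l : ℤ) * (B.H k).div p) =
        if k = l then 1 else 0 := by
      intro l
      rw [Finset.sum_add_distrib, d1, d2, zero_add]
    rw [Finset.sum_congr rfl fun l _ => e2 l, Finset.sum_ite_eq Finset.univ k,
      if_pos (Finset.mem_univ k)]
  have hD : ∀ p : DivVal K, 0 ≤ p.ord g + (B.H k).div p := by
    intro p
    have := le_div (B.H k) p hg
    omega
  have hdeg : ∀ p ∈ F, 1 ≤ ∑ l, (B.deg p l : ℤ) := by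
    intro p hp
    have := B.deg_pos p ((hmem p).1 hp).1
    exact_mod_cast this
  have hnn : ∀ p ∈ F, 0 ≤ (∑ l, (B.deg p l : ℤ)) * (p.ord g + (B.H k).div p) := fun p hp =>
    mul_nonneg (by have := hdeg p hp; omega) (hD p)
  obtain ⟨p, hpF, hp0⟩ : ∃ p ∈ F, p.ord g + (B.H k).div p ≠ 0 := by
    by_contra hc
    push Not at hc
    rw [Finset.sum_eq_zero fun p hp => by rw [hc p hp, mul_zero]] at d3
    exact zero_ne_one d3
  have hDp : 1 ≤ p.ord g + (B.H k).div p := by
    have := hD p
    omega
  have hterm : 1 ≤ (∑ l, (B.deg p l : ℤ)) * (p.ord g + (B.H k).div p) := by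
    have h1 := hdeg p hpF
    nlinarith
  have hsplit := Finset.add_sum_erase F
    (fun p => (∑ l, (B.deg p l : ℤ)) * (p.ord g + (B.H k).div p)) hpF
  rw [d3] at hsplit
  have hrest : 0 ≤ ∑ q ∈ F.erase p, (∑ l, (B.deg q l : ℤ)) * (q.ord g + (B.H k).div q) :=
    Finset.sum_nonneg fun q hq => hnn q (Finset.mem_of_mem_erase hq)
  have hterm1 : (∑ l, (B.deg p l : ℤ)) * (p.ord g + (B.H k).div p) = 1 := by
    omega
  have hrest0 : ∑ q ∈ F.erase p, (∑ l, (B.deg q l : ℤ)) * (q.ord g + (B.H k).div q) = 0 := by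
    omega
  refine ⟨p, ?_, ?_⟩
  · have h1 := hdeg p hpF
    have h2 : ∑ l, (B.deg p l : ℤ) = 1 := by nlinarith
    exact_mod_cast h2
  · intro q hq hqp
    by_cases hqF : q ∈ F
    · have h0 := (Finset.sum_eq_zero_iff_of_nonneg fun q hq => hnn q (Finset.mem_of_mem_erase hq)).1
        hrest0 q (Finset.mem_erase.2 ⟨hqp, hqF⟩)
      rcases mul_eq_zero.1 h0 with h | h
      · have := hdeg q hqF
        omega
      · exact h
    · have := hout q hq hqF
      omega

end

theorem hCBY (hCBD : StCBD) : StCBY := by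
  classical
  intro K _ _ V r B n L SC
  have hex : ∀ (k : Fin r) (g : K) (_ : g ∈ (B.H k).gens), ∃ p : DivVal K, ∑ l, B.deg p l = 1 ∧
      ∀ q ∈ V.primes, q ≠ p → q.ord g + (B.H k).div q = 0 :=
    fun k g hg => exists_prime hCBD B k g hg
  choose P hP1 hP2 using hex
  refine ⟨Finset.univ.biUnion fun k => (SC.s k).attach.image fun x => P k x.1 (SC.sub k x.1 x.2),
    ?_, ?_⟩
  · rintro q hq ⟨j, hj⟩
    obtain ⟨k, g, hg, g', hg', hz⟩ := SC.ratio j
    have h1 := SC.sub k g hg
    have h2 := SC.sub k g' hg'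
    have hor : q = P k g h1 ∨ q = P k g' h2 := by
      by_contra hc
      push Not at hc
      have e1 := hP2 k g h1 q hq hc.1
      have e2 := hP2 k g' h2 q hq hc.2
      apply hj
      rw [hz, ord_div q ((B.H k).ne_zero g h1) ((B.H k).ne_zero g' h2)]
      omega
    rw [Finset.mem_biUnion]
    refine ⟨k, Finset.mem_univ k, ?_⟩
    rw [Finset.mem_image]
    rcases hor with rfl | rfl
    · exact ⟨⟨g, hg⟩, Finset.mem_attach _ _, rfl⟩
    · exact ⟨⟨g', hg'⟩, Finset.mem_attach _ _, rfl⟩
  · have h1 : ∀ q ∈ (Finset.univ.biUnion fun k =>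
        (SC.s k).attach.image fun x => P k x.1 (SC.sub k x.1 x.2)), ∑ k, B.deg q k = 1 := by
      intro q hq
      rw [Finset.mem_biUnion] at hq
      obtain ⟨k, -, hq⟩ := hq
      rw [Finset.mem_image] at hq
      obtain ⟨x, -, rfl⟩ := hq
      exact hP1 k x.1 _
    rw [Finset.sum_congr rfl h1, Finset.sum_const, smul_eq_mul, mul_one]
    refine le_trans Finset.card_biUnion_le (le_trans (Finset.sum_le_sum fun k _ => ?_) SC.card_le)
    refine le_trans Finset.card_image_le ?_
    rw [Finset.card_attach]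

end Pool.Agent.Helper86.GX
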