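import Pool.Agent.Helper98.GX.St4

/-!
# Project GX, module LIN: linear changes of coordinates and the top form
-/

set_option autoImplicit false

open scoped BigOperators

namespace Pool.Agent.Helper86.GX

open Pool.Agent.Helper98.GX
open Pool.Agent.Helper53.CX (DivVal LinSys IsNefCartier)

section
variable {K : Type} [Field K] [Algebra ℂ K]

private theorem lin_one (v : DivVal K) : v.ord 1 = 0 := by
  have h := v.ord_mul 1 1 one_ne_zero one_ne_zero
  rw [one_mul] at h
  omega

/-- nonzero constants have order zero -/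
private theorem lin_const (v : DivVal K) (c : ℂ) (hc : c ≠ 0) : v.ord (algebraMap ℂ K c) = 0 := by
  obtain ⟨R, _, hR, _⟩ := v.exists_model
  have h1 : ∀ d : ℂ, d ≠ 0 → 0 ≤ v.ord (algebraMap ℂ K d) := fun d hd =>
    hR _ (R.algebraMap_mem d) (by simpa using hd)
  have h2 := h1 c hc
  have h3 := h1 c⁻¹ (inv_ne_zero hc)
  have h4 := v.ord_mul (algebraMap ℂ K c) (algebraMap ℂ K c⁻¹) (by simpa using hc)
    (by simpa using hc)
  rw [← map_mul, mul_inv_cancel₀ hc, map_one, lin_one] at h4
  omega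

private theorem lin_inv (v : DivVal K) (a : K) (ha : a ≠ 0) : v.ord a⁻¹ = - v.ord a := by
  have h := v.ord_mul a a⁻¹ ha (inv_ne_zero ha)
  rw [mul_inv_cancel₀ ha, lin_one] at h
  omega

private theorem lin_prod (v : DivVal K) {N : ℕ} (g : Fin N → K) (hg : ∀ a, g a ≠ 0) :
    v.ord (∏ a, g a) = ∑ a, v.ord (g a) := by
  classical
  have key : ∀ s : Finset (Fin N), v.ord (∏ a ∈ s, g a) = ∑ a ∈ s, v.ord (g a) := by
    intro s
    induction s using Finset.induction_on with
    | empty => simp [lin_one]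
    | insert a s ha ih =>
      rw [Finset.prod_insert ha, Finset.sum_insert ha,
        v.ord_mul _ _ (hg a) (Finset.prod_ne_zero_iff.2 fun b _ => hg b), ih]
  exact key _

omit [Algebra ℂ K] in
/-- determinants of matrices with given column sums in the blocks -/
private theorem lin_det {n r : ℕ} (M : Matrix (Fin n ⊕ Fin r) (Fin n ⊕ Fin r) K)
    (J : Matrix (Fin r) (Fin n) K)
    (h1 : J * M.toBlocks₁₁ + M.toBlocks₂₁ = J) (h2 : J * M.toBlocks₁₂ + M.toBlocks₂₂ = 1) :
    (M.toBlocks₁₁ - M.toBlocks₁₂ * J).det = M.det := by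
  have h3 : Matrix.fromBlocks 1 0 J 1 * M * Matrix.fromBlocks 1 0 (-J) 1 =
      Matrix.fromBlocks (M.toBlocks₁₁ - M.toBlocks₁₂ * J) M.toBlocks₁₂ 0 1 := by
    conv_lhs => rw [← Matrix.fromBlocks_toBlocks M]
    rw [Matrix.fromBlocks_multiply, Matrix.fromBlocks_multiply]
    simp only [Matrix.one_mul, Matrix.zero_mul, Matrix.mul_one, Matrix.mul_zero, add_zero,
      zero_add]
    rw [h1, h2, Matrix.one_mul, Matrix.mul_neg, ← sub_eq_add_neg, add_neg_cancel]
  have h4 := congrArg Matrix.det h3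
  rw [Matrix.det_mul, Matrix.det_mul, Matrix.det_fromBlocks_zero₁₂, Matrix.det_fromBlocks_zero₁₂,
    Matrix.det_fromBlocks_zero₂₁] at h4
  simpa using h4.symm

/-- the inverse of a graded matrix is graded -/
private theorem lin_graded {N r : ℕ} (bl : Fin N → Fin r) (T S : Matrix (Fin N) (Fin N) ℂ)
    (hTS : T * S = 1) (hST : S * T = 1) (hT : Graded bl T) : Graded bl S := by
  classical
  intro a b hab
  by_contra hne
  let P : Matrix (Fin N) (Fin N) ℂ := Matrix.diagonal fun x => if bl x = bl a then 1 else 0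
  have h1 : T * P = P * T := by
    ext x y
    rw [Matrix.mul_diagonal, Matrix.diagonal_mul]
    by_cases h0 : T x y = 0
    · rw [h0, zero_mul, mul_zero]
    · rw [hT x y h0, mul_comm]
  have h2 : S * P = P * S := by
    calc S * P = S * P * (T * S) := by rw [hTS, Matrix.mul_one]
      _ = S * (P * T) * S := by simp only [Matrix.mul_assoc]
      _ = S * (T * P) * S := by rw [h1]
      _ = (S * T) * P * S := by simp only [Matrix.mul_assoc]
      _ = P * S := by rw [hST, Matrix.one_mul]
  have h3 := congr_fun (congr_fun h2 a) b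
  rw [Matrix.mul_diagonal, Matrix.diagonal_mul, if_neg hne, if_pos rfl, mul_zero, one_mul] at h3
  exact hab h3.symm

private theorem lin_unique {n : ℕ} (L : LogCoord K n) (v : DivVal K) (a b : ℤ)
    (ha : IsJacMin L v a) (hb : IsJacMin L v b) : a = b := by
  obtain ⟨a1, f, a2, a3, a4⟩ := ha
  obtain ⟨b1, g, b2, b3, b4⟩ := hb
  have h1 := a1 g b2 b3
  have h2 := b1 f a2 a3
  omega

private theorem lin_ord {n : ℕ} (L : LogCoord K n) (v : DivVal K) (a : ℤ)
    (ha : IsJacMin L v a) : ordOmega L v = - a := by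
  have hex : ∃ e : ℤ, IsJacMin L v e := ⟨a, ha⟩
  rw [ordOmega, dif_pos hex, lin_unique L v _ _ hex.choose_spec ha]

/-- the shift of the order of the top form -/
private theorem lin_omega {n : ℕ} (L L' : LogCoord K n) (D : K) (hD : D ≠ 0)
    (h : ∀ f, jac L' f = D * jac L f) (v : DivVal K) (e0 : ℤ) (he : IsJacMin L v e0) :
    ordOmega L' v = ordOmega L v - v.ord D := by
  have h1 : IsJacMin L' v (e0 + v.ord D) := by
    obtain ⟨a1, f, a2, a3, a4⟩ := he
    refine ⟨fun g hg1 hg2 => ?_, f, a2, ?_, ?_⟩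
    · rw [h] at hg2 ⊢
      have h0 : jac L g ≠ 0 := right_ne_zero_of_mul hg2
      rw [v.ord_mul _ _ hD h0]
      have := a1 g hg1 h0
      omega
    · rw [h]
      exact mul_ne_zero hD a3
    · rw [h, v.ord_mul _ _ hD a3, a4]
      omega
  rw [lin_ord L' v _ h1, lin_ord L v _ he]
  omega

private theorem lin_div (D : Derivation ℂ K K) (a b : K) (hb : b ≠ 0) :
    D (a / b) = (D a * b - a * D b) / b ^ 2 := by
  have h1 : D (a / b * b) = a / b * D b + b * D (a / b) := by
    rw [D.leibniz, smul_eq_mul, smul_eq_mul]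
  rw [div_mul_cancel₀ _ hb] at h1
  field_simp
  rw [h1]
  field_simp
  ring

end

theorem hLIN (hSEC : StSEC) (hDRV : StDRV) (hUNQ : StUNQ) (hALI : StALI) (hJEX : StJEX) :
    StLIN := by
  classical
  intro K _ _ V r B n L Fr β L' e hch T hT hgr
  obtain ⟨d, c, hd, -, -⟩ := hDRV K V r B n L Fr
  obtain ⟨S, hTS, hST⟩ : ∃ S, T * S = 1 ∧ S * T = 1 :=
    ⟨T⁻¹, Matrix.mul_nonsing_inv T hT, Matrix.nonsing_inv_mul T hT⟩
  have hSgr : Graded Fr.bl S := lin_graded Fr.bl T S hTS hST hgr
  -- the new sections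
  obtain ⟨g', hg'⟩ : ∃ g' : Fin (n + r) → K, ∀ a, g' a = Fr.sec (T a) := ⟨_, fun _ => rfl⟩
  have hsum : ∀ a, g' a = ∑ b, algebraMap ℂ K (T a b) * Fr.g b := hg'
  have hg0 : ∀ a, g' a ≠ 0 := by
    intro a
    rw [hg']
    refine (hSEC K V r B n L Fr).1 (Fr.bl a) (T a) (fun b hb => ?_) ?_
    · by_contra h0
      exact hb (hgr a b h0)
    · intro h0
      have h1 := congr_fun (congr_fun hTS a) a
      rw [Matrix.mul_apply, Matrix.one_apply_eq] at h1
      rw [Finset.sum_eq_zero (fun b _ => by rw [h0, Pi.zero_apply, zero_mul])] at h1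
      exact zero_ne_one h1
  have hback : ∀ a, ∑ x, g' x * algebraMap ℂ K (S a x) = Fr.g a := by
    intro a
    have h1 : ∀ x, g' x * algebraMap ℂ K (S a x) =
        ∑ b, algebraMap ℂ K (S a x * T x b) * Fr.g b := by
      intro x
      rw [hsum, Finset.sum_mul]
      refine Finset.sum_congr rfl fun b _ => ?_
      rw [map_mul]
      ring
    rw [Finset.sum_congr rfl fun x _ => h1 x, Finset.sum_comm]
    have h2 : ∀ b, ∑ x, algebraMap ℂ K (S a x * T x b) * Fr.g b =
        if a = b then Fr.g b else 0 := by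
      intro b
      rw [← Finset.sum_mul, ← map_sum, ← Matrix.mul_apply, hST, Matrix.one_apply]
      split_ifs <;> simp
    rw [Finset.sum_congr rfl fun b _ => h2 b]
    simp
  -- the new derivations
  let d' : Fin (n + r) → Derivation ℂ K K := fun a => ∑ x, algebraMap ℂ K (S x a) • d x
  have hd' : ∀ a f, d' a f = ∑ x, algebraMap ℂ K (S x a) * d x f := by
    intro a f
    have h1 := congr_fun (map_sum (Derivation.coeFnAddMonoidHom : Derivation ℂ K K →+ K → K)
      (fun x => algebraMap ℂ K (S x a) • d x) Finset.univ) f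
    rw [Finset.sum_apply] at h1
    exact h1
  obtain ⟨c', hc'⟩ : ∃ c' : Fin (n + r) → Fin r → K,
      ∀ a l, c' a l = ∑ x, algebraMap ℂ K (S x a) * c x l := ⟨_, fun _ _ => rfl⟩
  have key : ∀ a b, d' a (Fr.g b) + c' a (Fr.bl b) * Fr.g b = algebraMap ℂ K (S b a) := by
    intro a b
    rw [hd', hc', Finset.sum_mul, ← Finset.sum_add_distrib]
    have h1 : ∀ x, algebraMap ℂ K (S x a) * d x (Fr.g b) +
        algebraMap ℂ K (S x a) * c x (Fr.bl b) * Fr.g b =
        if x = b then algebraMap ℂ K (S x a) else 0 := by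
      intro x
      rw [mul_assoc, ← mul_add, hd]
      split_ifs <;> simp
    rw [Finset.sum_congr rfl fun x _ => h1 x]
    simp
  have hcon : ∀ (D : Derivation ℂ K K) (t : ℂ) (x : K),
      D (algebraMap ℂ K t * x) = algebraMap ℂ K t * D x := by
    intro D t x
    rw [← Algebra.smul_def, D.map_smul, Algebra.smul_def]
  have key2 : ∀ a b, d' a (g' b) + c' a (Fr.bl b) * g' b = if a = b then 1 else 0 := by
    intro a b
    rw [hsum b, map_sum, Finset.mul_sum, ← Finset.sum_add_distrib]
    have h1 : ∀ x, d' a (algebraMap ℂ K (T b x) * Fr.g x) +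
        c' a (Fr.bl b) * (algebraMap ℂ K (T b x) * Fr.g x) =
        algebraMap ℂ K (T b x * S x a) := by
      intro x
      rw [hcon, map_mul, ← key a x]
      by_cases h0 : T b x = 0
      · rw [h0]
        simp
      · rw [hgr b x h0]
        ring
    rw [Finset.sum_congr rfl fun x _ => h1 x, ← map_sum, ← Matrix.mul_apply, hTS,
      Matrix.one_apply]
    by_cases hab : a = b
    · rw [if_pos hab, if_pos hab.symm, map_one]
    · rw [if_neg hab, if_neg (Ne.symm hab), map_zero]
  -- the new coordinates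
  have heβ : ∀ i k, e i ≠ β k := by
    intro i k h
    refine (hch.range (e i)).1 ⟨i, rfl⟩ ?_
    rw [h, hch.base]
  obtain ⟨y, hy⟩ : ∃ y : Fin n → K, ∀ j, y j = g' (e j) / g' (β (Fr.bl (e j))) :=
    ⟨_, fun _ => rfl⟩
  have hy0 : ∀ j, y j ≠ 0 := fun j => by
    rw [hy]
    exact div_ne_zero (hg0 _) (hg0 _)
  let θ : Fin n → Derivation ℂ K K := fun j => g' (e j) • d' (e j)
  have hθ : ∀ j f, θ j f = g' (e j) * d' (e j) f := fun j f => rfl
  have hθy : ∀ i j, θ j (y i) = if i = j then y i else 0 := by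
    intro i j
    have h1 : d' (e j) (g' (e i)) = (if j = i then 1 else 0) - c' (e j) (Fr.bl (e i)) * g' (e i) := by
      have h2 := key2 (e j) (e i)
      have h3 : (if e j = e i then (1 : K) else 0) = if j = i then 1 else 0 := by
        by_cases hij : j = i
        · rw [if_pos hij, if_pos (by rw [hij])]
        · rw [if_neg hij, if_neg fun h => hij (hch.inj h)]
      rw [h3] at h2
      rw [← h2]
      ring
    have h4 : d' (e j) (g' (β (Fr.bl (e i)))) =
        - (c' (e j) (Fr.bl (e i)) * g' (β (Fr.bl (e i)))) := by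
      have h2 := key2 (e j) (β (Fr.bl (e i)))
      rw [if_neg (heβ _ _), hch.base] at h2
      exact eq_neg_of_add_eq_zero_left h2
    rw [hθ, hy, lin_div _ _ _ (hg0 _), h1, h4]
    have h5 := hg0 (β (Fr.bl (e i)))
    by_cases hij : i = j
    · subst hij
      rw [if_pos rfl, if_pos rfl]
      field_simp
      ring
    · rw [if_neg hij, if_neg (Ne.symm hij)]
      field_simp
      ring
  let L'' : LogCoord K n :=
    { z := y
      θ := θ
      basis := hALI K n L y θ hy0 hθy
      theta_z := hθy }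
  refine ⟨L'', fun j => ?_, fun v => ?_⟩
  · rw [← hg', ← hg']
    exact hy j
  -- the matrix of the change of coordinates
  obtain ⟨M, hM⟩ : ∃ M : Matrix (Fin (n + r)) (Fin (n + r)) K,
      ∀ x a, M x a = g' x * algebraMap ℂ K (S a x) * (Fr.g a)⁻¹ := ⟨_, fun _ _ => rfl⟩
  have hMdet : M.det = (∏ x, g' x) * algebraMap ℂ K S.det * ∏ a, (Fr.g a)⁻¹ := by
    have h1 : M = Matrix.diagonal g' * (S.map (algebraMap ℂ K)).transpose *
        Matrix.diagonal fun a => (Fr.g a)⁻¹ := by
      ext x a
      rw [Matrix.mul_diagonal, Matrix.diagonal_mul, hM]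
      rfl
    rw [h1, Matrix.det_mul, Matrix.det_mul, Matrix.det_diagonal, Matrix.det_diagonal,
      Matrix.det_transpose]
    congr 2
    exact ((algebraMap ℂ K).map_det S).symm
  have hSdet : S.det ≠ 0 := by
    intro h0
    have h1 : T.det * S.det = 1 := by rw [← Matrix.det_mul, hTS, Matrix.det_one]
    rw [h0, mul_zero] at h1
    exact zero_ne_one h1
  have hcol : ∀ k a, ∑ x, (if Fr.bl x = k then M x a else 0) = if Fr.bl a = k then 1 else 0 := by
    intro k a
    have h1 : ∀ x, (if Fr.bl x = k then M x a else 0) = if Fr.bl a = k then M x a else 0 := by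
      intro x
      by_cases h0 : S a x = 0
      · rw [hM, h0]
        simp
      · rw [hSgr a x h0]
    rw [Finset.sum_congr rfl fun x _ => h1 x]
    by_cases hk : Fr.bl a = k
    · simp only [if_pos hk]
      rw [Finset.sum_congr rfl fun x _ => hM x a, ← Finset.sum_mul, hback,
        mul_inv_cancel₀ (Fr.ne a)]
    · simp only [if_neg hk]
      simp
  -- the indexing
  have hbij : Function.Bijective (Sum.elim e β) := by
    constructor
    · rintro (i | k) (j | l) h
      · exact congrArg Sum.inl (hch.inj h)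
      · exact absurd h (heβ i l)
      · exact absurd h.symm (heβ j k)
      · have h1 : β k = β l := h
        have h2 : k = l := by rw [← hch.base k, ← hch.base l, h1]
        rw [h2]
    · intro a
      by_cases ha : a = β (Fr.bl a)
      · exact ⟨Sum.inr (Fr.bl a), ha.symm⟩
      · obtain ⟨j, hj⟩ := (hch.range a).2 ha
        exact ⟨Sum.inl j, hj⟩
  let E : Fin n ⊕ Fin r ≃ Fin (n + r) := Equiv.ofBijective _ hbij
  have hEl : ∀ j, E (Sum.inl j) = e j := fun _ => rfl
  have hEr : ∀ k, E (Sum.inr k) = β k := fun _ => rfl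
  have hcol2 : ∀ k a, ∑ j, (if Fr.bl (e j) = k then M (e j) a else 0) + M (β k) a =
      if Fr.bl a = k then 1 else 0 := by
    intro k a
    rw [← hcol k a, ← Equiv.sum_comp E, Fintype.sum_sum_type]
    congr 1
    have h1 : ∀ l, (if Fr.bl (E (Sum.inr l)) = k then M (E (Sum.inr l)) a else 0) =
        if l = k then M (β l) a else 0 := by
      intro l
      rw [hEr, hch.base]
    rw [Finset.sum_congr rfl fun l _ => h1 l]
    simp
  obtain ⟨Mt, hMt⟩ : ∃ Mt : Matrix (Fin n ⊕ Fin r) (Fin n ⊕ Fin r) K,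
      Mt = M.submatrix E E := ⟨_, rfl⟩
  obtain ⟨J, hJ⟩ : ∃ J : Matrix (Fin r) (Fin n) K,
      ∀ k i, J k i = if Fr.bl (e i) = k then 1 else 0 := ⟨_, fun _ _ => rfl⟩
  obtain ⟨A, hA⟩ : ∃ A : Matrix (Fin n) (Fin n) K,
      ∀ j i, A j i = θ j (L'.z i) / L'.z i := ⟨_, fun _ _ => rfl⟩
  have hAM : A = Mt.toBlocks₁₁ - Mt.toBlocks₁₂ * J := by
    ext j i
    rw [Matrix.sub_apply, Matrix.mul_apply]
    have h1 : ∀ k, Mt.toBlocks₁₂ j k * J k i =
        if Fr.bl (e i) = k then M (e j) (β k) else 0 := by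
      intro k
      rw [hJ, hMt]
      by_cases hk : Fr.bl (e i) = k
      · rw [if_pos hk, if_pos hk, mul_one]
        rfl
      · rw [if_neg hk, if_neg hk, mul_zero]
    rw [Finset.sum_congr rfl fun k _ => h1 k, Finset.sum_ite_eq, if_pos (Finset.mem_univ _)]
    have h2 : Mt.toBlocks₁₁ j i = M (e j) (e i) := by
      rw [hMt]
      rfl
    have h3 : d' (e j) (Fr.g (e i)) = algebraMap ℂ K (S (e i) (e j)) -
        c' (e j) (Fr.bl (e i)) * Fr.g (e i) := by
      rw [← key]
      ring
    have h4 : d' (e j) (Fr.g (β (Fr.bl (e i)))) = algebraMap ℂ K (S (β (Fr.bl (e i))) (e j)) -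
        c' (e j) (Fr.bl (e i)) * Fr.g (β (Fr.bl (e i))) := by
      rw [← key, hch.base]
      ring
    rw [h2, hM, hM, hA, hch.z_eq, hθ, lin_div _ _ _ (Fr.ne _), h3, h4]
    have h5 := Fr.ne (e i)
    have h6 := Fr.ne (β (Fr.bl (e i)))
    field_simp
    ring
  have hAdet : A.det = M.det := by
    rw [hAM, lin_det Mt J, hMt, Matrix.det_submatrix_equiv_self]
    · ext k i
      rw [Matrix.add_apply, Matrix.mul_apply, hJ k i, ← hcol2 k (e i)]
      congr 1
      · refine Finset.sum_congr rfl fun j _ => ?_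
        rw [hJ, hMt]
        by_cases hk : Fr.bl (e j) = k
        · rw [if_pos hk, if_pos hk, one_mul]
          rfl
        · rw [if_neg hk, if_neg hk, zero_mul]
      · rw [hMt]
        rfl
    · ext k l
      have h1 := hcol2 k (β l)
      rw [hch.base] at h1
      rw [Matrix.add_apply, Matrix.mul_apply, Matrix.one_apply]
      have h2 : (if k = l then (1 : K) else 0) = if l = k then 1 else 0 := by
        by_cases hkl : k = l
        · rw [if_pos hkl, if_pos hkl.symm]
        · rw [if_neg hkl, if_neg (Ne.symm hkl)]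
      rw [h2, ← h1]
      congr 1
      · refine Finset.sum_congr rfl fun j _ => ?_
        rw [hJ, hMt]
        by_cases hk : Fr.bl (e j) = k
        · rw [if_pos hk, if_pos hk, one_mul]
          rfl
        · rw [if_neg hk, if_neg hk, zero_mul]
      · rw [hMt]
        rfl
  -- the Jacobians
  have hjac : ∀ f, jac L'' f = A.det * jac L' f := by
    intro f
    have h1 : (Matrix.of fun i j => L''.θ j (f i)) =
        (Matrix.of fun i j => L'.θ j (f i)) * A.transpose := by
      ext i j
      rw [Matrix.mul_apply]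
      change θ j (f i) = _
      rw [hUNQ K n L' (θ j) (f i)]
      refine Finset.sum_congr rfl fun k _ => ?_
      rw [Matrix.transpose_apply, hA, Matrix.of_apply]
      ring
    unfold jac
    rw [h1, Matrix.det_mul, Matrix.det_transpose, mul_comm]
  have hp1 : (∏ x, g' x) ≠ 0 := Finset.prod_ne_zero_iff.2 fun x _ => hg0 x
  have hp2 : (∏ a, (Fr.g a)⁻¹) ≠ 0 := Finset.prod_ne_zero_iff.2 fun a _ => inv_ne_zero (Fr.ne a)
  have hs0 : algebraMap ℂ K S.det ≠ 0 := by simpa using hSdet
  have hD0 : A.det ≠ 0 := by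
    rw [hAdet, hMdet]
    exact mul_ne_zero (mul_ne_zero hp1 hs0) hp2
  obtain ⟨e0, he0⟩ := hJEX K n L' v
  have hfin := lin_omega L' L'' A.det hD0 hjac v e0 he0
  have hordD : v.ord A.det = ∑ a, v.ord (g' a) - ∑ a, v.ord (Fr.g a) := by
    rw [hAdet, hMdet, v.ord_mul _ _ (mul_ne_zero hp1 hs0) hp2, v.ord_mul _ _ hp1 hs0,
      lin_const v _ hSdet, lin_prod v g' hg0, lin_prod v _ fun a => inv_ne_zero (Fr.ne a),
      Finset.sum_congr rfl fun a _ => lin_inv v (Fr.g a) (Fr.ne a), Finset.sum_neg_distrib]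
    ring
  rw [hfin, hordD, hch.omega]
  have h9 : ∑ a, v.ord (Fr.sec (T a)) = ∑ a, v.ord (g' a) :=
    Finset.sum_congr rfl fun a _ => by rw [hg']
  rw [h9]
  ring

end Pool.Agent.Helper86.GX
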